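import Mathlib

set_option autoImplicit false
set_option linter.unusedSectionVars false
set_option linter.dupNamespace false

namespace Pool.Agent.L0h65.SB

open Relation

variable {V : Type} [DecidableEq V]

/-- arc relation -/
def Arc (F : Finset (V × V)) (a b : V) : Prop := (a, b) ∈ F

/-- adjacency in the underlying graph, avoiding `w` -/
def Und (F : Finset (V × V)) (w : V) (a b : V) : Prop :=
  ((a, b) ∈ F ∨ (b, a) ∈ F) ∧ a ≠ w ∧ b ≠ w

/-- adjacency in the underlying graph -/
def UndA (F : Finset (V × V)) (a b : V) : Prop := (a, b) ∈ F ∨ (b, a) ∈ F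

lemma und_symm {F : Finset (V × V)} {w a b : V} (h : Und F w a b) : Und F w b a :=
  ⟨h.1.symm, h.2.2, h.2.1⟩

lemma unda_symm {F : Finset (V × V)} {a b : V} (h : UndA F a b) : UndA F b a := Or.symm h

lemma rtg_symm {α : Type} {r : α → α → Prop} (hr : ∀ a b, r a b → r b a) {a b : α}
    (h : ReflTransGen r a b) : ReflTransGen r b a := by
  induction h with
  | refl => exact .refl
  | tail _ h2 ih => exact .head (hr _ _ h2) ih

lemma rtg_mono {α : Type} {r p : α → α → Prop} (hr : ∀ a b, r a b → p a b) {a b : α}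
    (h : ReflTransGen r a b) : ReflTransGen p a b := by
  induction h with
  | refl => exact .refl
  | tail _ h2 ih => exact ih.tail (hr _ _ h2)

lemma und_rsymm {F : Finset (V × V)} {w a b : V} (h : ReflTransGen (Und F w) a b) :
    ReflTransGen (Und F w) b a := rtg_symm (fun _ _ => und_symm) h

lemma unda_rsymm {F : Finset (V × V)} {a b : V} (h : ReflTransGen (UndA F) a b) :
    ReflTransGen (UndA F) b a := rtg_symm (fun _ _ => unda_symm) h

/-- The state of the ear construction: `(S, F)` together with a virtual arc `(x, y)`. -/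
structure Inv (E : Finset (V × V)) (S : Finset V) (F : Finset (V × V)) (x y : V) : Prop where
  sub : F ⊆ E
  ne : x ≠ y
  xs : x ∈ S
  ys : y ∈ S
  strong : ∀ u ∈ S, ∀ v ∈ S, ReflTransGen (Arc (insert (x, y) F)) u v
  bi : ∀ w, ∀ u ∈ S, ∀ v ∈ S, u ≠ w → v ≠ w → ReflTransGen (Und (insert (x, y) F) w) u v
  conn : ∀ u ∈ S, ∀ v ∈ S, ReflTransGen (UndA F) u v
  inS : ∀ p ∈ F, p.1 ∈ S ∧ p.2 ∈ S

/-- strongly biconnected part -/
structure SBP (E : Finset (V × V)) (S : Finset V) (F : Finset (V × V)) : Prop where
  sub : F ⊆ E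
  strong : ∀ u ∈ S, ∀ v ∈ S, ReflTransGen (Arc F) u v
  bi : ∀ w, ∀ u ∈ S, ∀ v ∈ S, u ≠ w → v ≠ w → ReflTransGen (Und F w) u v
  inS : ∀ p ∈ F, p.1 ∈ S ∧ p.2 ∈ S

/-- subdivision step -/
lemma Inv.step {E : Finset (V × V)} {S : Finset V} {F : Finset (V × V)} {x y z : V}
    (h : Inv E S F x y) (hz : z ∉ S) (hzy : (z, y) ∈ E) :
    Inv E (insert z S) (insert (z, y) F) x z := by
  have hxz : x ≠ z := fun e => hz (e ▸ h.xs)
  have hyz : y ≠ z := fun e => hz (e ▸ h.ys)
  have hxy : ReflTransGen (Arc (insert (x, z) (insert (z, y) F))) x y :=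
    .head (b := z) (by simp [Arc]) (.single (by simp [Arc]))
  have lift : ∀ u v, ReflTransGen (Arc (insert (x, y) F)) u v →
      ReflTransGen (Arc (insert (x, z) (insert (z, y) F))) u v := by
    intro u v huv
    induction huv with
    | refl => exact .refl
    | tail _ h2 ih =>
      refine ih.trans ?_
      simp only [Arc, Finset.mem_insert, Prod.mk.injEq] at h2
      rcases h2 with ⟨rfl, rfl⟩ | h2
      · exact hxy
      · exact .single (by simp [Arc, h2])
  have liftU : ∀ w u v, w ≠ z → ReflTransGen (Und (insert (x, y) F) w) u v →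
      ReflTransGen (Und (insert (x, z) (insert (z, y) F)) w) u v := by
    intro w u v hw huv
    have key : ∀ {a b : V}, a = x → b = y → a ≠ w → b ≠ w →
        ReflTransGen (Und (insert (x, z) (insert (z, y) F)) w) a b := by
      rintro a b rfl rfl ha hb
      exact .head (b := z) ⟨by simp, ha, hw.symm⟩ (.single ⟨by simp, hw.symm, hb⟩)
    induction huv with
    | refl => exact .refl
    | tail _ h2 ih =>
      refine ih.trans ?_
      obtain ⟨h2, h3, h4⟩ := h2
      simp only [Finset.mem_insert, Prod.mk.injEq] at h2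
      rcases h2 with (⟨e1, e2⟩ | h2) | (⟨e1, e2⟩ | h2)
      · exact key e1 e2 h3 h4
      · exact .single ⟨by simp [h2], h3, h4⟩
      · exact und_rsymm (key e1 e2 h4 h3)
      · exact .single ⟨by simp [h2], h3, h4⟩
  have liftA : ∀ u v, ReflTransGen (UndA F) u v →
      ReflTransGen (UndA (insert (z, y) F)) u v := by
    intro u v huv
    refine rtg_mono ?_ huv
    rintro a b (h1 | h1)
    · exact Or.inl (by simp [h1])
    · exact Or.inr (by simp [h1])
  have a1 : ReflTransGen (Arc (insert (x, z) (insert (z, y) F))) z y := .single (by simp [Arc])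
  have a2 : ReflTransGen (Arc (insert (x, z) (insert (z, y) F))) x z := .single (by simp [Arc])
  refine ⟨?_, hxz, ?_, ?_, ?_, ?_, ?_, ?_⟩
  · intro p hp
    rcases Finset.mem_insert.mp hp with rfl | hp
    · exact hzy
    · exact h.sub hp
  · exact Finset.mem_insert_of_mem h.xs
  · exact Finset.mem_insert_self _ _
  · intro u hu v hv
    have hu' : ∃ u' ∈ S, ReflTransGen (Arc (insert (x, z) (insert (z, y) F))) u u' := by
      rcases Finset.mem_insert.mp hu with rfl | hu
      · exact ⟨y, h.ys, a1⟩
      · exact ⟨u, hu, .refl⟩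
    have hv' : ∃ v' ∈ S, ReflTransGen (Arc (insert (x, z) (insert (z, y) F))) v' v := by
      rcases Finset.mem_insert.mp hv with rfl | hv
      · exact ⟨x, h.xs, a2⟩
      · exact ⟨v, hv, .refl⟩
    obtain ⟨u', hu', h1⟩ := hu'
    obtain ⟨v', hv', h2⟩ := hv'
    exact (h1.trans (lift _ _ (h.strong u' hu' v' hv'))).trans h2
  · intro w u hu v hv huw hvw
    by_cases hw : w = z
    · subst hw
      have hu' : u ∈ S := (Finset.mem_insert.mp hu).resolve_left huw
      have hv' : v ∈ S := (Finset.mem_insert.mp hv).resolve_left hvw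
      have h1 := h.conn u hu' v hv'
      have h2 : ∀ a b, ReflTransGen (UndA F) a b → a ∈ S →
          b ∈ S ∧ ReflTransGen (Und (insert (x, w) (insert (w, y) F)) w) a b := by
        intro a b hab ha
        induction hab with
        | refl => exact ⟨ha, .refl⟩
        | tail _ h2 ih =>
          obtain ⟨hbS, ih⟩ := ih
          rcases h2 with h2 | h2
          · have hc := (h.inS _ h2).2
            refine ⟨hc, ih.tail ⟨by simp [h2], ?_, ?_⟩⟩
            · rintro rfl; exact hz hbS
            · rintro rfl; exact hz hc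
          · have hc := (h.inS _ h2).1
            refine ⟨hc, ih.tail ⟨by simp [h2], ?_, ?_⟩⟩
            · rintro rfl; exact hz hbS
            · rintro rfl; exact hz hc
      exact (h2 u v h1 hu').2
    · have att : ∃ t ∈ S, t ≠ w ∧
          ReflTransGen (Und (insert (x, z) (insert (z, y) F)) w) z t := by
        by_cases hwy : w = y
        · subst hwy
          exact ⟨x, h.xs, h.ne, .single ⟨by simp, fun e => hw e.symm, h.ne⟩⟩
        · exact ⟨y, h.ys, fun e => hwy e.symm,
            .single ⟨by simp, fun e => hw e.symm, fun e => hwy e.symm⟩⟩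
      obtain ⟨t, ht, htw, h1⟩ := att
      have P : ∀ u ∈ insert z S, u ≠ w → ∃ u' ∈ S, u' ≠ w ∧
          ReflTransGen (Und (insert (x, z) (insert (z, y) F)) w) u u' := by
        intro u hu huw
        rcases Finset.mem_insert.mp hu with rfl | hu
        · exact ⟨t, ht, htw, h1⟩
        · exact ⟨u, hu, huw, .refl⟩
      obtain ⟨u', hu', huw', h2⟩ := P u hu huw
      obtain ⟨v', hv', hvw', h3⟩ := P v hv hvw
      exact (h2.trans (liftU w _ _ hw (h.bi w u' hu' v' hv' huw' hvw'))).trans (und_rsymm h3)
  · intro u hu v hv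
    have P : ∀ u ∈ insert z S, ∃ u' ∈ S, ReflTransGen (UndA (insert (z, y) F)) u u' := by
      intro u hu
      rcases Finset.mem_insert.mp hu with rfl | hu
      · exact ⟨y, h.ys, .single (Or.inl (by simp))⟩
      · exact ⟨u, hu, .refl⟩
    obtain ⟨u', hu', h1⟩ := P u hu
    obtain ⟨v', hv', h2⟩ := P v hv
    exact (h1.trans (liftA _ _ (h.conn u' hu' v' hv'))).trans (unda_rsymm h2)
  · intro p hp
    rcases Finset.mem_insert.mp hp with rfl | hp
    · exact ⟨Finset.mem_insert_self _ _, Finset.mem_insert_of_mem h.ys⟩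
    · exact ⟨Finset.mem_insert_of_mem (h.inS p hp).1, Finset.mem_insert_of_mem (h.inS p hp).2⟩

lemma Inv.close {E : Finset (V × V)} {S : Finset V} {F : Finset (V × V)} {x y : V}
    (h : Inv E S F x y) (hxy : (x, y) ∈ E) : SBP E S (insert (x, y) F) := by
  refine ⟨?_, h.strong, h.bi, ?_⟩
  · intro p hp
    rcases Finset.mem_insert.mp hp with rfl | hp
    · exact hxy
    · exact h.sub hp
  · intro p hp
    rcases Finset.mem_insert.mp hp with rfl | hp
    · exact ⟨h.xs, h.ys⟩
    · exact h.inS p hp

lemma SBP.inv {E : Finset (V × V)} {S : Finset V} {F : Finset (V × V)} {x y : V}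
    (h : SBP E S F) (hx : x ∈ S) (hy : y ∈ S) (hxy : x ≠ y) : Inv E S F x y := by
  refine ⟨h.sub, hxy, hx, hy, ?_, ?_, ?_, h.inS⟩
  · intro u hu v hv
    refine rtg_mono ?_ (h.strong u hu v hv)
    intro a b hab
    exact Finset.mem_insert_of_mem hab
  · intro w u hu v hv huw hvw
    refine rtg_mono ?_ (h.bi w u hu v hv huw hvw)
    rintro a b ⟨hab | hab, h1, h2⟩
    · exact ⟨Or.inl (Finset.mem_insert_of_mem hab), h1, h2⟩
    · exact ⟨Or.inr (Finset.mem_insert_of_mem hab), h1, h2⟩
  · intro u hu v hv
    refine rtg_mono ?_ (h.strong u hu v hv)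
    intro a b hab
    exact Or.inl hab

/-- a step whose head is outside `S` -/
def Out (E : Finset (V × V)) (S : Finset V) (a b : V) : Prop := (a, b) ∈ E ∧ b ∉ S

lemma avoid {E : Finset (V × V)} {S : Finset V} {x z : V}
    (h : ReflTransGen (Out E S) x z) (hne : x ≠ z) :
    ∃ t, ReflTransGen (Out E (insert z S)) x t ∧ (t, z) ∈ E := by
  induction h using ReflTransGen.head_induction_on with
  | refl => exact absurd rfl hne
  | head h1 h2 ih =>
    rename_i a c
    by_cases hc : c = z
    · subst hc
      exact ⟨a, .refl, h1.1⟩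
    · obtain ⟨t, ht1, ht2⟩ := ih hc
      refine ⟨t, .head ⟨h1.1, ?_⟩ ht1, ht2⟩
      simp [hc, h1.2]

lemma out_end {E : Finset (V × V)} {S : Finset V} {x z : V}
    (h : ReflTransGen (Out E S) x z) : z = x ∨ z ∉ S := by
  rcases ReflTransGen.cases_tail h with h | ⟨c, _, h⟩
  · exact Or.inl h
  · exact Or.inr h.2

lemma run [Fintype V] {E : Finset (V × V)} : ∀ (m : ℕ) {S : Finset V} {F : Finset (V × V)}
    {x y z : V}, Sᶜ.card ≤ m → Inv E S F x y → ReflTransGen (Out E S) x z → (z, y) ∈ E →
    ∃ S' F', S ⊆ S' ∧ z ∈ S' ∧ SBP E S' F' ∧ F'.card + S.card ≤ F.card + S'.card + 1 := by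
  intro m
  induction m with
  | zero =>
    intro S F x y z hm h hr hzy
    have hz : z = x := by
      rcases out_end hr with h1 | h1
      · exact h1
      · exfalso
        have : z ∈ Sᶜ := Finset.mem_compl.mpr h1
        have := Finset.card_pos.mpr ⟨z, this⟩
        omega
    subst hz
    refine ⟨S, _, subset_rfl, h.xs, h.close hzy, ?_⟩
    have := Finset.card_insert_le (z, y) F
    omega
  | succ m ih =>
    intro S F x y z hm h hr hzy
    rcases out_end hr with hz | hz
    · subst hz
      refine ⟨S, _, subset_rfl, h.xs, h.close hzy, ?_⟩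
      have := Finset.card_insert_le (z, y) F
      omega
    · have hxz : x ≠ z := fun e => hz (e ▸ h.xs)
      obtain ⟨t, ht1, ht2⟩ := avoid hr hxz
      have hcard : (insert z S)ᶜ.card ≤ m := by
        rw [Finset.card_compl] at hm ⊢
        rw [Finset.card_insert_of_notMem hz]
        omega
      obtain ⟨S', F', h1, h2, h3, h4⟩ := ih hcard (h.step hz hzy) ht1 ht2
      refine ⟨S', F', (Finset.subset_insert _ _).trans h1, h1 (Finset.mem_insert_self _ _), h3, ?_⟩
      rw [Finset.card_insert_of_notMem hz] at h4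
      have := Finset.card_insert_le (z, y) F
      omega

/-- existence of an open ear -/
lemma ear [Fintype V] {E : Finset (V × V)} (hs : ∀ u v, ReflTransGen (Arc E) u v)
    (hb : ∀ w u v, u ≠ w → v ≠ w → ReflTransGen (Und E w) u v)
    {S : Finset V} (h2 : 2 ≤ S.card) (hS : S ≠ Finset.univ) :
    ∃ x ∈ S, ∃ y ∈ S, x ≠ y ∧ ∃ z, z ∉ S ∧ ReflTransGen (Out E S) x z ∧ (z, y) ∈ E := by
  by_contra hcon
  -- in-vertices and out-vertices
  set InV : V → V → Prop := fun x z => x ∈ S ∧ ReflTransGen (Out E S) x z with hIn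
  set OutV : V → V → Prop := fun y z => y ∈ S ∧ ∃ t, t ∉ S ∧ ReflTransGen (Out E S) z t ∧ (t, y) ∈ E
    with hOut
  have key : ∀ z ∉ S, ∀ x y, InV x z → OutV y z → x = y := by
    intro z hz x y hx hy
    by_contra hne
    apply hcon
    obtain ⟨hyS, t, ht, hzt, hty⟩ := hy
    exact ⟨x, hx.1, y, hyS, hne, t, ht, hx.2.trans hzt, hty⟩
  have hSne : S.Nonempty := Finset.card_pos.mp (by omega)
  have exIn : ∀ z ∉ S, ∃ x, InV x z := by
    intro z hz
    obtain ⟨s, hs1⟩ := hSne
    have h := hs s z
    -- last vertex in S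
    have : ∀ a b, ReflTransGen (Arc E) a b → a ∈ S → ∃ x ∈ S, ReflTransGen (Out E S) x b := by
      intro a b hab ha
      induction hab with
      | refl => exact ⟨a, ha, .refl⟩
      | tail _ h2 ih =>
        rename_i b c _
        obtain ⟨x, hx, hxb⟩ := ih
        by_cases hc : c ∈ S
        · exact ⟨c, hc, .refl⟩
        · exact ⟨x, hx, hxb.tail ⟨h2, hc⟩⟩
    obtain ⟨x, hx, hxz⟩ := this s z h hs1
    exact ⟨x, hx, hxz⟩
  have exOut : ∀ z ∉ S, ∃ y, OutV y z := by
    intro z hz
    obtain ⟨s, hs1⟩ := hSne
    have h := hs z s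
    have : ∀ a b, ReflTransGen (Arc E) a b → b ∈ S → a ∉ S →
        ∃ y ∈ S, ∃ t, t ∉ S ∧ ReflTransGen (Out E S) a t ∧ (t, y) ∈ E := by
      intro a b hab hb'
      induction hab using ReflTransGen.head_induction_on with
      | refl => intro h; exact absurd hb' h
      | head h1 hh1 ih =>
        rename_i a c
        intro ha
        by_cases hc : c ∈ S
        · exact ⟨c, hc, a, ha, .refl, h1⟩
        · obtain ⟨y, hy, t, ht, h3, h4⟩ := ih hc
          exact ⟨y, hy, t, ht, .head ⟨h1, hc⟩ h3, h4⟩
    obtain ⟨y, hy, h3⟩ := this z s h hs1 hz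
    exact ⟨y, hy, h3⟩
  obtain ⟨z, hz⟩ : ∃ z, z ∉ S := by
    by_contra h
    push Not at h
    exact hS (Finset.eq_univ_iff_forall.mpr h)
  obtain ⟨h, hh⟩ := exIn z hz
  obtain ⟨s, hsS, hsh⟩ : ∃ s ∈ S, s ≠ h := by
    by_contra hc
    push Not at hc
    have : S ⊆ {h} := fun a ha => Finset.mem_singleton.mpr (hc a ha)
    have := Finset.card_le_card this
    simp at this
    omega
  -- invariant: a ∉ S with InV h a
  have walk : ∀ a b, ReflTransGen (Und E h) a b → a ∉ S → InV h a → b ∉ S ∧ InV h b := by
    intro a b hab ha hha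
    induction hab with
    | refl => exact ⟨ha, hha⟩
    | tail _ h2 ih =>
      rename_i b c _
      obtain ⟨hbS, hhb⟩ := ih
      obtain ⟨h2, hbh, hch⟩ := h2
      have hOutb : OutV h b := by
        obtain ⟨y, hy⟩ := exOut b hbS
        have := key b hbS h y hhb hy
        rw [this]
        exact hy
      by_cases hc : c ∈ S
      · exfalso
        apply hch
        rcases h2 with h2 | h2
        · exact (key b hbS h c hhb ⟨hc, b, hbS, .refl, h2⟩).symm
        · exact key b hbS c h ⟨hc, .single ⟨h2, hbS⟩⟩ hOutb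
      · refine ⟨hc, ?_⟩
        rcases h2 with h2 | h2
        · exact ⟨hhb.1, hhb.2.tail ⟨h2, hc⟩⟩
        · obtain ⟨x, hx⟩ := exIn c hc
          have hxb : InV x b := ⟨hx.1, hx.2.tail ⟨h2, hbS⟩⟩
          have := key b hbS x h hxb hOutb
          rw [← this]
          exact hx
  have hzh : z ≠ h := fun e => hz (e ▸ hh.1)
  exact (walk z s (hb h z s hzh hsh) hz hh).1 hsS

/-- every strongly biconnected digraph on `n ≥ 3` vertices has a spanning strongly biconnected
subdigraph with at most `2n - 3` arcs -/
lemma spanning [Fintype V] {E : Finset (V × V)} (hloop : ∀ v, (v, v) ∉ E)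
    (hs : ∀ u v, ReflTransGen (Arc E) u v)
    (hb : ∀ w u v, u ≠ w → v ≠ w → ReflTransGen (Und E w) u v)
    (h3 : 3 ≤ Fintype.card V) :
    ∃ F : Finset (V × V), SBP E Finset.univ F ∧ F.card + 3 ≤ 2 * Fintype.card V := by
  classical
  -- base
  have base : ∃ S F, SBP E S F ∧ 3 ≤ S.card ∧ F.card + 3 ≤ 2 * S.card := by
    -- initial arc
    have start : ∀ x y, x ≠ y → (y, x) ∈ E → Inv E {x, y} {(y, x)} x y := by
      intro x y hxy hyx
      refine ⟨by simpa using hyx, hxy, by simp, by simp, ?_, ?_, ?_, ?_⟩
      · have h1 : ReflTransGen (Arc (insert (x, y) {(y, x)})) x y := .single (by simp [Arc])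
        have h2 : ReflTransGen (Arc (insert (x, y) {(y, x)})) y x := .single (by simp [Arc])
        intro u hu v hv
        simp only [Finset.mem_insert, Finset.mem_singleton] at hu hv
        rcases hu with rfl | rfl <;> rcases hv with rfl | rfl
        · exact .refl
        · exact h1
        · exact h2
        · exact .refl
      · intro w u hu v hv huw hvw
        simp only [Finset.mem_insert, Finset.mem_singleton] at hu hv
        rcases hu with rfl | rfl <;> rcases hv with rfl | rfl
        · exact .refl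
        · exact .single ⟨by simp, huw, hvw⟩
        · exact .single ⟨by simp, huw, hvw⟩
        · exact .refl
      · intro u hu v hv
        simp only [Finset.mem_insert, Finset.mem_singleton] at hu hv
        rcases hu with rfl | rfl <;> rcases hv with rfl | rfl
        · exact .refl
        · exact .single (by simp [UndA])
        · exact .single (by simp [UndA])
        · exact .refl
      · intro p hp
        simp only [Finset.mem_singleton] at hp
        subst hp
        simp
    have fin : ∀ x y, x ≠ y → (y, x) ∈ E → ∀ z, z ∉ ({x, y} : Finset V) →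
        ReflTransGen (Out E {x, y}) x z → (z, y) ∈ E →
        ∃ S F, SBP E S F ∧ 3 ≤ S.card ∧ F.card + 3 ≤ 2 * S.card := by
      intro x y hxy hyx z hz hr hzy
      obtain ⟨S', F', h1, h2, h3', h4⟩ := run _ le_rfl (start x y hxy hyx) hr hzy
      have hc2 : ({x, y} : Finset V).card = 2 := Finset.card_pair hxy
      have hc3 : 3 ≤ S'.card := by
        have : (insert z ({x, y} : Finset V)) ⊆ S' := Finset.insert_subset h2 h1
        have := Finset.card_le_card this
        rw [Finset.card_insert_of_notMem hz, hc2] at this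
        exact this
      refine ⟨S', F', h3', hc3, ?_⟩
      rw [hc2] at h4
      simp only [Finset.card_singleton] at h4
      omega
    by_cases hsym : ∃ x y, (y, x) ∈ E ∧ (x, y) ∉ E
    · obtain ⟨x, y, hyx, hxy⟩ := hsym
      have hne : x ≠ y := by
        rintro rfl
        exact hxy hyx
      -- walk from x to y, take the last step
      have hr := hs x y
      -- convert to Out E {x,y}
      have conv : ∀ a b, ReflTransGen (Arc E) a b → a = x → b ≠ x →
          (∃ t, ReflTransGen (Out E {x}) x t ∧ (t, b) ∈ E) := by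
        intro a b hab ha
        subst ha
        induction hab with
        | refl => intro h; exact absurd rfl h
        | tail _ h2 ih =>
          rename_i b c _
          intro hc
          by_cases hb' : b = a
          · subst hb'
            exact ⟨b, .refl, h2⟩
          · obtain ⟨t, ht1, ht2⟩ := ih hb'
            exact ⟨b, ht1.tail ⟨ht2, by simpa using hb'⟩, h2⟩
      obtain ⟨t, ht1, ht2⟩ := conv x y hr rfl (fun e => hne e.symm)
      have hr2 : ReflTransGen (Out E {x}) x y := ht1.tail ⟨ht2, by simpa using fun e => hne e.symm⟩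
      obtain ⟨t', ht1', ht2'⟩ := avoid hr2 hne
      have hins : (insert y ({x} : Finset V)) = {x, y} := Finset.pair_comm y x
      rw [hins] at ht1'
      rcases out_end ht1' with h1 | h1
      · subst h1
        exact absurd ht2' hxy
      · exact fin x y hne hyx t' h1 ht1' ht2'
    · push Not at hsym
      -- pick any arc
      obtain ⟨u, v, huv⟩ : ∃ u v : V, u ≠ v := by
        have : 1 < Fintype.card V := by omega
        obtain ⟨u, v, h⟩ := Fintype.one_lt_card_iff.mp this
        exact ⟨u, v, h⟩
      obtain ⟨a, b, hab⟩ : ∃ a b, (a, b) ∈ E := by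
        rcases ReflTransGen.cases_head (hs u v) with h | ⟨c, hc, _⟩
        · exact absurd h huv
        · exact ⟨u, c, hc⟩
      have hne : a ≠ b := by
        rintro rfl
        exact hloop _ hab
      have hba : (b, a) ∈ E := hsym b a hab
      have hc2 : ({a, b} : Finset V).card = 2 := Finset.card_pair hne
      have hnu : ({a, b} : Finset V) ≠ Finset.univ := by
        intro h
        rw [h, Finset.card_univ] at hc2
        omega
      obtain ⟨x, hx, y, hy, hxy, z, hz, hr, hzy⟩ := ear hs hb (by rw [hc2]) hnu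
      simp only [Finset.mem_insert, Finset.mem_singleton] at hx hy
      rcases hx with rfl | rfl <;> rcases hy with rfl | rfl
      · exact absurd rfl hxy
      · exact fin x y hxy hba z hz hr hzy
      · rw [Finset.pair_comm] at hz hr
        exact fin x y hxy hab z hz hr hzy
      · exact absurd rfl hxy
  -- maximal
  obtain ⟨S0, F0, h1, h2, h4⟩ := base
  have grow : ∀ m : ℕ, ∀ S F, Sᶜ.card ≤ m → SBP E S F → 3 ≤ S.card → F.card + 3 ≤ 2 * S.card →
      ∃ F : Finset (V × V), SBP E Finset.univ F ∧ F.card + 3 ≤ 2 * Fintype.card V := by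
    intro m
    induction m with
    | zero =>
      intro S F hm hS h3 hF
      have : S = Finset.univ := by
        have := Finset.card_eq_zero.mp (Nat.le_zero.mp hm)
        rwa [Finset.compl_eq_empty_iff] at this
      subst this
      exact ⟨F, hS, by rwa [Finset.card_univ] at hF⟩
    | succ m ih =>
      intro S F hm hS h3 hF
      by_cases hu : S = Finset.univ
      · subst hu
        exact ⟨F, hS, by rwa [Finset.card_univ] at hF⟩
      · obtain ⟨x, hx, y, hy, hxy, z, hz, hr, hzy⟩ := ear hs hb (by omega) hu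
        obtain ⟨S', F', h1, h2, h3', h4⟩ := run _ le_rfl (hS.inv hx hy hxy) hr hzy
        have hlt : S.card + 1 ≤ S'.card := by
          have : insert z S ⊆ S' := Finset.insert_subset h2 h1
          have := Finset.card_le_card this
          rwa [Finset.card_insert_of_notMem hz] at this
        refine ih S' F' ?_ h3' (by omega) (by omega)
        rw [Finset.card_compl] at hm ⊢
        omega
  exact grow _ S0 F0 le_rfl h1 h2 h4

end Pool.Agent.L0h65.SB
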